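import Pool.Agent.Q257.C4.Main

/-!
# Triangle-free `C₄`-saturated graphs

Let `F` be a field with `q = 2 ^ j` elements and `ψ` a nontrivial additive character of `F` with
values `±1`. The graph on the pairs `(α, b)` with `ψ(α) = -1`, in which `(α, b)` and `(γ, d)` are
adjacent iff `α γ (b + d) = 1`, is an induced subgraph of the polarity graph `b + d = a c`
(`a = 1 / α`, `c = 1 / γ`), so it has no four-cycle; it has no triangle, as the first coordinates
of a triangle have sum zero. Two vertices that are not adjacent are joined by at least `q / 8` paths
of length three, by the elementary bound (fourth moment) for Kloosterman sums. A colouring argument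
gives a set `A` of at most `q / 8` first coordinates which contains the interior of such a path for
every pair. So every vertex set that contains all vertices with first coordinate in `A` induces a
triangle-free `C₄`-saturated graph, and these sets have all sizes from `q ^ 2 / 8` to `q ^ 2 / 2`.
-/

namespace Pool.Agent.Results.MP_02bc1b_co.TriangleFree

/-- `G` is `H`-saturated: it contains no copy of `H`, and adding any missing edge gives a copy. -/
def Saturated {V W : Type} (H : SimpleGraph W) (G : SimpleGraph V) : Prop :=
  H.Free G ∧ ∀ u v : V, u ≠ v → ¬ G.Adj u v → H.IsContained (G ⊔ SimpleGraph.edge u v)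

/-- For every sufficiently large `n` there is a triangle-free `C₄`-saturated graph on `n` vertices,
that is, `sat(n, K₃, C₄) = 0`. -/
theorem result : ∃ n₀ : ℕ, ∀ n ≥ n₀, ∃ G : SimpleGraph (Fin n),
    Saturated (SimpleGraph.cycleGraph 4) G ∧ G.CliqueFree 3 := by
  obtain ⟨n₀, h⟩ := Pool.Agent.Q257.C4.main
  refine ⟨n₀, fun n hn => ?_⟩
  obtain ⟨G, h1, h2, h3⟩ := h n hn
  exact ⟨G, ⟨h1, h3⟩, h2⟩

end Pool.Agent.Results.MP_02bc1b_co.TriangleFree
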